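import Mathlib

/-!
# Two-party communication complexity: deterministic, public-coin, entanglement-assisted quantum

Definitions only.
-/

open scoped ComplexOrder

namespace Pool.Agent.J4H95.CC

/-- A deterministic two-party protocol (protocol tree) for inputs `x : X` of Alice and
`y : Y` of Bob. At an inner node one of the parties sends one bit, which is a function of the
own input; a leaf carries the output. -/
inductive DetProt (X Y : Type) : Type
  | out (b : Bool) : DetProt X Y
  | alice (g : X → Bool) (s t : DetProt X Y) : DetProt X Y
  | bob (g : Y → Bool) (s t : DetProt X Y) : DetProt X Y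

variable {X Y : Type}

/-- The worst-case number of bits exchanged: the depth of the tree. -/
def DetProt.cost : DetProt X Y → ℕ
  | .out _ => 0
  | .alice _ s t => max s.cost t.cost + 1
  | .bob _ s t => max s.cost t.cost + 1

/-- The output of the protocol on the inputs `x`, `y`: the bit `true` leads to the second
subtree, the bit `false` to the first. -/
def DetProt.run : DetProt X Y → X → Y → Bool
  | .out b, _, _ => b
  | .alice g s t, x, y => if g x = true then t.run x y else s.run x y
  | .bob g s t, x, y => if g y = true then t.run x y else s.run x y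

/-- The deterministic communication complexity `D(F)`. -/
noncomputable def D (F : X → Y → Bool) : ℕ :=
  sInf {c | ∃ t : DetProt X Y, t.cost ≤ c ∧ ∀ x y, t.run x y = F x y}

/-- The public-coin randomized communication complexity `R_ε(F)`: a public-coin protocol is a
probability distribution `p` on a finite set `Ω` of outcomes of the coins together with
a deterministic protocol for each outcome. Its cost is the largest number of bits exchanged, for
all inputs and all outcomes; on every input the output has to be correct with probability at
least `1 - ε`. -/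
noncomputable def R (ε : ℝ) (F : X → Y → Bool) : ℕ :=
  sInf {c | ∃ (Ω : Type) (_ : Fintype Ω) (p : Ω → ℝ) (t : Ω → DetProt X Y),
    (∀ ω, 0 ≤ p ω) ∧ ∑ ω, p ω = 1 ∧ (∀ ω, (t ω).cost ≤ c) ∧
    ∀ x y, 1 - ε ≤ ∑ ω, if (t ω).run x y = F x y then p ω else 0}

/-- Alice, whose system has the orthonormal basis `α`, applies the linear map `V` from her space
`ℂ^α` to `ℂ^α' ⊗ ℂ²` and hands the qubit `ℂ²` over to Bob, whose new system has the
basis `Bool × β`. The joint state `ψ` in `ℂ^α ⊗ ℂ^β` is given by its coordinates. -/
noncomputable def sendA {α α' β : Type} [Fintype α] (V : Matrix (α' × Bool) α ℂ)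
    (ψ : α → β → ℂ) : α' → Bool × β → ℂ :=
  fun a mb => ∑ a₀, V (a, mb.1) a₀ * ψ a₀ mb.2

/-- Bob applies the linear map `W` from his space `ℂ^β` to `ℂ² ⊗ ℂ^β'` and hands the qubit
`ℂ²` over to Alice, whose new system has the basis `α × Bool`. -/
noncomputable def sendB {α β β' : Type} [Fintype β] (W : Matrix (Bool × β') β ℂ)
    (ψ : α → β → ℂ) : α × Bool → β' → ℂ :=
  fun am b => ∑ b₀, W (am.2, b) b₀ * ψ am.1 b₀

/-- A quantum protocol in which `c` qubits are exchanged, for inputs `x : X` of Alice and `y : Y`
of Bob. Before the protocol the joint system has the state space `ℂ^α ⊗ ℂ^β`, the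
first factor being held by Alice and the second by Bob.

* A party sends a qubit: it applies an isometry, which depends on its own input only, from its
  space to the tensor product of its new space (of any finite dimension) with one qubit,
  and hands over the qubit.
* At the end one of the parties performs a measurement with two outcomes on its own system, which
  depends on its own input only; it is given by the positive operator `E` with
  `0 ≤ E ≤ 1` of the outcome `true`. The outcome of the measurement is the output. -/
inductive QProt (X Y : Type) : Type → Type → ℕ → Type 1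
  | aliceOut {α β : Type} [Fintype α] [Fintype β] [DecidableEq α] (E : X → Matrix α α ℂ)
      (h₀ : ∀ x, (E x).PosSemidef) (h₁ : ∀ x, (1 - E x).PosSemidef) : QProt X Y α β 0
  | bobOut {α β : Type} [Fintype α] [Fintype β] [DecidableEq β] (E : Y → Matrix β β ℂ)
      (h₀ : ∀ y, (E y).PosSemidef) (h₁ : ∀ y, (1 - E y).PosSemidef) : QProt X Y α β 0
  | aliceSends {α β α' : Type} {c : ℕ} [Fintype α] [Fintype α'] [DecidableEq α]
      (V : X → Matrix (α' × Bool) α ℂ) (h : ∀ x, (V x).conjTranspose * V x = 1)
      (rest : QProt X Y α' (Bool × β) c) : QProt X Y α β (c + 1)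
  | bobSends {α β β' : Type} {c : ℕ} [Fintype β] [Fintype β'] [DecidableEq β]
      (W : Y → Matrix (Bool × β') β ℂ) (h : ∀ y, (W y).conjTranspose * W y = 1)
      (rest : QProt X Y (α × Bool) β' c) : QProt X Y α β (c + 1)

/-- The probability that the output of the protocol is `true` if the joint state before the
protocol is `ψ`. -/
noncomputable def QProt.acc : {α β : Type} → {c : ℕ} → QProt X Y α β c → X → Y →
    (α → β → ℂ) → ℝ
  | α, β, _, @QProt.aliceOut _ _ _ _ _ _ _ E _ _, x, _, ψ =>
      (∑ b : β, ∑ a : α, ∑ a' : α, (starRingEnd ℂ) (ψ a b) * E x a a' * ψ a' b).re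
  | α, β, _, @QProt.bobOut _ _ _ _ _ _ _ E _ _, _, y, ψ =>
      (∑ a : α, ∑ b : β, ∑ b' : β, (starRingEnd ℂ) (ψ a b) * E y b b' * ψ a b').re
  | _, _, _, @QProt.aliceSends _ _ _ _ _ _ _ _ _ V _ rest, x, y, ψ =>
      rest.acc x y (sendA (V x) ψ)
  | _, _, _, @QProt.bobSends _ _ _ _ _ _ _ _ _ W _ rest, x, y, ψ =>
      rest.acc x y (sendB (W y) ψ)

/-- The entanglement-assisted bounded-error quantum communication complexity `Q*_ε(F)`: the least
number `c` of qubits such that there are finite-dimensional systems of Alice and Bob, an arbitrary
joint pure state `ψ` of them (a unit vector; it does not depend on the inputs and is not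
counted in the cost) and a quantum protocol with `c` qubits whose output is `F x y` with
probability at least `1 - ε` on every input. -/
noncomputable def Qstar (ε : ℝ) (F : X → Y → Bool) : ℕ :=
  sInf {c | ∃ (α β : Type) (_ : Fintype α) (_ : Fintype β) (ψ : α → β → ℂ)
    (P : QProt X Y α β c), ∑ a, ∑ b, Complex.normSq (ψ a b) = 1 ∧
    ∀ x y, 1 - ε ≤ if F x y = true then P.acc x y ψ else 1 - P.acc x y ψ}

/-- The AND-composed function `F(x, y) = f(x ∧ y)`. -/
def andComp {n : ℕ} (f : (Fin n → Bool) → Bool) (x y : Fin n → Bool) : Bool :=
  f fun i => x i && y i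

end Pool.Agent.J4H95.CC
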