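import Pool.Agent.J4H95.CC.Defs

/-!
# Deterministic protocols: building blocks and the lower bound for `min (a, b) mod 2`
-/

namespace Pool.Agent.J4H95.CC

variable {X Y : Type}

/-- Alice sends `k` bits. -/
theorem exists_sendA (k : ℕ) : ∀ (g : X → Fin k → Bool) (T : (Fin k → Bool) → DetProt X Y)
    (d : ℕ), (∀ w, (T w).cost ≤ d) →
    ∃ t : DetProt X Y, t.cost ≤ k + d ∧ ∀ x y, t.run x y = (T (g x)).run x y := by
  induction k with
  | zero =>
      intro g T d hT
      refine ⟨T Fin.elim0, by simpa using hT _, ?_⟩
      intro x y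
      rw [Subsingleton.elim (g x) Fin.elim0]
  | succ k ih =>
      intro g T d hT
      have h : ∀ b : Bool, ∃ t : DetProt X Y, t.cost ≤ k + d ∧
          ∀ x y, t.run x y = (T (Fin.cons b (Fin.tail (g x)))).run x y := fun b =>
        ih (fun x => Fin.tail (g x)) (fun w => T (Fin.cons b w)) d (fun w => hT _)
      choose t ht1 ht2 using h
      refine ⟨.alice (fun x => g x 0) (t false) (t true), ?_, ?_⟩
      · have h1 := ht1 false
        have h2 := ht1 true
        simp only [DetProt.cost]
        omega
      · intro x y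
        simp only [DetProt.run, ht2]
        have : ∀ b, g x 0 = b → (Fin.cons b (Fin.tail (g x)) : Fin (k + 1) → Bool) = g x := by
          rintro b rfl
          exact Fin.cons_self_tail _
        split
        · rename_i h; rw [this _ h]
        · rename_i h; rw [this false (by simpa using h)]

/-- Bob sends `k` bits. -/
theorem exists_sendB (k : ℕ) : ∀ (g : Y → Fin k → Bool) (T : (Fin k → Bool) → DetProt X Y)
    (d : ℕ), (∀ w, (T w).cost ≤ d) →
    ∃ t : DetProt X Y, t.cost ≤ k + d ∧ ∀ x y, t.run x y = (T (g y)).run x y := by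
  induction k with
  | zero =>
      intro g T d hT
      refine ⟨T Fin.elim0, by simpa using hT _, ?_⟩
      intro x y
      rw [Subsingleton.elim (g y) Fin.elim0]
  | succ k ih =>
      intro g T d hT
      have h : ∀ b : Bool, ∃ t : DetProt X Y, t.cost ≤ k + d ∧
          ∀ x y, t.run x y = (T (Fin.cons b (Fin.tail (g y)))).run x y := fun b =>
        ih (fun y => Fin.tail (g y)) (fun w => T (Fin.cons b w)) d (fun w => hT _)
      choose t ht1 ht2 using h
      refine ⟨.bob (fun y => g y 0) (t false) (t true), ?_, ?_⟩
      · have h1 := ht1 false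
        have h2 := ht1 true
        simp only [DetProt.cost]
        omega
      · intro x y
        simp only [DetProt.run, ht2]
        have : ∀ b, g y 0 = b → (Fin.cons b (Fin.tail (g y)) : Fin (k + 1) → Bool) = g y := by
          rintro b rfl
          exact Fin.cons_self_tail _
        split
        · rename_i h; rw [this _ h]
        · rename_i h; rw [this false (by simpa using h)]

/-- Every function of `n`-bit inputs has a deterministic protocol. -/
theorem exists_det (n : ℕ) (F : (Fin n → Bool) → Y → Bool) :
    ∃ c, ∃ t : DetProt (Fin n → Bool) Y, t.cost ≤ c ∧ ∀ x y, t.run x y = F x y := by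
  obtain ⟨t, ht1, ht2⟩ := exists_sendA (X := Fin n → Bool) (Y := Y) n (fun x => x)
    (fun w => .bob (fun y => F w y) (.out false) (.out true)) 1 (fun w => by simp [DetProt.cost])
  refine ⟨_, t, ht1, ?_⟩
  intro x y
  rw [ht2]
  by_cases h : F x y = true <;> simp [DetProt.run, h]

/-- A protocol tree writes its output as a sum of `2 ^ cost` products. -/
theorem exists_factor (t : DetProt X Y) :
    ∃ (ι : Type) (_ : Fintype ι) (u : ι → X → ℝ) (v : ι → Y → ℝ),
      Fintype.card ι ≤ 2 ^ t.cost ∧
      ∀ x y, (if t.run x y = true then (1 : ℝ) else 0) = ∑ i, u i x * v i y := by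
  induction t with
  | out b =>
      refine ⟨Unit, inferInstance, fun _ _ => if b = true then 1 else 0, fun _ _ => 1, ?_, ?_⟩
      · simp [DetProt.cost]
      · intro x y
        cases b <;> simp [DetProt.run]
  | alice g s t ihs iht =>
      obtain ⟨ι, _, u, v, h1, h2⟩ := ihs
      obtain ⟨κ, _, u', v', h1', h2'⟩ := iht
      refine ⟨ι ⊕ κ, inferInstance, Sum.elim (fun i x => if g x = true then 0 else u i x)
        (fun i x => if g x = true then u' i x else 0), Sum.elim v v', ?_, ?_⟩
      · rw [Fintype.card_sum]
        simp only [DetProt.cost]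
        have e1 : 2 ^ s.cost ≤ 2 ^ (max s.cost t.cost) := Nat.pow_le_pow_right (by norm_num)
          (le_max_left _ _)
        have e2 : 2 ^ t.cost ≤ 2 ^ (max s.cost t.cost) := Nat.pow_le_pow_right (by norm_num)
          (le_max_right _ _)
        rw [pow_succ]
        omega
      · intro x y
        rw [Fintype.sum_sum_type]
        simp only [DetProt.run, Sum.elim_inl, Sum.elim_inr]
        by_cases hg : g x = true
        · simp [hg, h2']
        · simp [hg, h2]
  | bob g s t ihs iht =>
      obtain ⟨ι, _, u, v, h1, h2⟩ := ihs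
      obtain ⟨κ, _, u', v', h1', h2'⟩ := iht
      refine ⟨ι ⊕ κ, inferInstance, Sum.elim u u',
        Sum.elim (fun i y => if g y = true then 0 else v i y)
        (fun i y => if g y = true then v' i y else 0), ?_, ?_⟩
      · rw [Fintype.card_sum]
        simp only [DetProt.cost]
        have e1 : 2 ^ s.cost ≤ 2 ^ (max s.cost t.cost) := Nat.pow_le_pow_right (by norm_num)
          (le_max_left _ _)
        have e2 : 2 ^ t.cost ≤ 2 ^ (max s.cost t.cost) := Nat.pow_le_pow_right (by norm_num)
          (le_max_right _ _)
        rw [pow_succ]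
        omega
      · intro x y
        rw [Fintype.sum_sum_type]
        simp only [DetProt.run, Sum.elim_inl, Sum.elim_inr]
        by_cases hg : g y = true
        · simp [hg, h2']
        · simp [hg, h2]

/-- The matrix `min (a, b) mod 2`, `1 ≤ a, b ≤ N`, has rank `N`. -/
theorem rank_min_parity (N : ℕ) (w : ℕ → ℝ)
    (h : ∀ a, a ≤ N → ∑ j ∈ Finset.range N, ((min a (j + 1) % 2 : ℕ) : ℝ) * w j = 0) :
    ∀ a, a < N → w a = 0 := by
  have hS : ∀ a, a ≤ N → ∑ j ∈ Finset.range N, (if a ≤ j then w j else 0) = 0 := by
    intro a ha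
    rcases Nat.lt_or_ge a N with haN | haN
    · have h1 := h (a + 1) haN
      have h0 := h a ha
      have hd : ∑ j ∈ Finset.range N, ((((min (a + 1) (j + 1) % 2 : ℕ) : ℝ) * w j) -
          (((min a (j + 1) % 2 : ℕ) : ℝ) * w j)) = 0 := by
        rw [Finset.sum_sub_distrib, h1, h0, sub_zero]
      have he : ∑ j ∈ Finset.range N, ((((min (a + 1) (j + 1) % 2 : ℕ) : ℝ) * w j) -
          (((min a (j + 1) % 2 : ℕ) : ℝ) * w j)) =
          ((((a + 1) % 2 : ℕ) : ℝ) - ((a % 2 : ℕ) : ℝ)) *
            ∑ j ∈ Finset.range N, (if a ≤ j then w j else 0) := by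
        rw [Finset.mul_sum]
        apply Finset.sum_congr rfl
        intro j _
        by_cases haj : a ≤ j
        · rw [min_eq_left (by omega), min_eq_left (by omega), if_pos haj]
          ring
        · rw [min_eq_right (by omega), min_eq_right (by omega), if_neg haj]
          ring
      rw [he] at hd
      rcases mul_eq_zero.mp hd with hd | hd
      · exfalso
        rcases Nat.mod_two_eq_zero_or_one a with h2 | h2
        · have : (a + 1) % 2 = 1 := by omega
          rw [this, h2] at hd
          norm_num at hd
        · have : (a + 1) % 2 = 0 := by omega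
          rw [this, h2] at hd
          norm_num at hd
      · exact hd
    · apply Finset.sum_eq_zero
      intro j hj
      rw [Finset.mem_range] at hj
      rw [if_neg (by omega)]
  intro a ha
  have h1 := hS a ha.le
  have h2 := hS (a + 1) ha
  have : ∑ j ∈ Finset.range N, ((if a ≤ j then w j else 0) - (if a + 1 ≤ j then w j else 0)) =
      w a := by
    rw [Finset.sum_eq_single a]
    · simp
    · intro j _ hj
      by_cases h3 : a ≤ j
      · rw [if_pos h3, if_pos (by omega), sub_self]
      · rw [if_neg h3, if_neg (by omega), sub_self]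
    · intro h3
      exact absurd (Finset.mem_range.mpr ha) h3
  rw [Finset.sum_sub_distrib, h1, h2] at this
  linarith

/-- Lower bound for deterministic protocols for `min (a, b) mod 2`. -/
theorem two_pow_cost_ge (N : ℕ) (t : DetProt X Y) (x : ℕ → X) (y : ℕ → Y)
    (h : ∀ a b, a ≤ N → b ≤ N → t.run (x a) (y b) = decide (min a b % 2 = 1)) :
    N ≤ 2 ^ t.cost := by
  obtain ⟨ι, _, u, v, h1, h2⟩ := exists_factor t
  by_contra hlt
  push Not at hlt
  have hcard : Fintype.card ι < N := lt_of_le_of_lt h1 hlt
  let φ : (Fin N → ℝ) →ₗ[ℝ] (ι → ℝ) :=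
    Matrix.mulVecLin (Matrix.of fun i (j : Fin N) => v i (y (j.1 + 1)))
  have hker : LinearMap.ker φ ≠ ⊥ := by
    apply LinearMap.ker_ne_bot_of_finrank_lt
    simpa using hcard
  obtain ⟨w, hw, hw0⟩ := (Submodule.ne_bot_iff _).mp hker
  apply hw0
  have hφ : ∀ i, ∑ j : Fin N, v i (y (j.1 + 1)) * w j = 0 := by
    intro i
    have := congrFun (LinearMap.mem_ker.mp hw) i
    simpa [φ, Matrix.mulVec, dotProduct] using this
  let w' : ℕ → ℝ := fun j => if hj : j < N then w ⟨j, hj⟩ else 0
  have hw' : ∀ a, a < N → w' a = 0 := by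
    apply rank_min_parity
    intro a ha
    rw [Finset.sum_range]
    have : ∀ j : Fin N, ((min a (j.1 + 1) % 2 : ℕ) : ℝ) * w' j.1 =
        ∑ i, u i (x a) * (v i (y (j.1 + 1)) * w j) := by
      intro j
      have e := h2 (x a) (y (j.1 + 1))
      rw [h a (j.1 + 1) ha j.2] at e
      have e3 : ((min a (j.1 + 1) % 2 : ℕ) : ℝ) =
          if decide (min a (j.1 + 1) % 2 = 1) = true then (1 : ℝ) else 0 := by
        rcases Nat.mod_two_eq_zero_or_one (min a (j.1 + 1)) with h3 | h3 <;> simp [h3]
      have e4 : w' j.1 = w j := by simp [w']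
      rw [e3, e, e4, Finset.sum_mul]
      apply Finset.sum_congr rfl
      intro i _
      ring
    rw [Finset.sum_congr rfl (fun j _ => this j), Finset.sum_comm]
    apply Finset.sum_eq_zero
    intro i _
    rw [← Finset.mul_sum, hφ, mul_zero]
  funext j
  have := hw' j.1 j.2
  simpa [w'] using this

end Pool.Agent.J4H95.CC
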