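import Pool.Agent.J4H95.CC.Defs

/-!
# Public-coin protocols as quantum protocols with entanglement: `Q* ≤ 2 R`
-/

open scoped ComplexOrder

namespace Pool.Agent.J4H95.CC

variable {X Y : Type}

/-- The matrix of an injective map of basis vectors. -/
def mapMat {γ β : Type} [DecidableEq γ] (g : β → γ) : Matrix γ β ℂ :=
  fun c b => if c = g b then 1 else 0

theorem mapMat_isometry {γ β : Type} [DecidableEq γ] [Fintype γ] [DecidableEq β] (g : β → γ)
    (hg : Function.Injective g) : (mapMat g).conjTranspose * mapMat g = 1 := by
  ext b b'
  simp only [mapMat, Matrix.mul_apply, Matrix.conjTranspose_apply, Matrix.one_apply]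
  rw [Finset.sum_eq_single (g b)]
  · by_cases h : b = b'
    · simp [h]
    · have : g b ≠ g b' := fun h' => h (hg h')
      simp [h, this]
  · intro c _ hc
    simp [hc]
  · simp

/-- The joint state `∑ v, w v |v⟩|v⟩`. -/
def diag {V : Type} [DecidableEq V] (w : V → ℂ) : V → V → ℂ :=
  fun a b => if a = b then w a else 0

/-- The bit sent by Alice at the root of a protocol tree. -/
def bitA (t : DetProt X Y) (x : X) : Bool :=
  match t with
  | .alice g _ _ => g x
  | _ => false

/-- The bit sent by Bob at the root of a protocol tree. -/
def bitB (t : DetProt X Y) (y : Y) : Bool :=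
  match t with
  | .bob g _ _ => g y
  | _ => false

/-- The subtree reached with the bit `i` of Alice and the bit `j` of Bob. -/
def next (t : DetProt X Y) (i j : Bool) : DetProt X Y :=
  match t with
  | .out b => .out b
  | .alice _ s t => if i = true then t else s
  | .bob _ s t => if j = true then t else s

theorem next_run (t : DetProt X Y) (x : X) (y : Y) :
    (next t (bitA t x) (bitB t y)).run x y = t.run x y := by
  cases t with
  | out b => rfl
  | alice g s t => by_cases h : g x = true <;> simp [next, bitA, DetProt.run, h]
  | bob g s t => by_cases h : g y = true <;> simp [next, bitB, DetProt.run, h]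

theorem next_cost (t : DetProt X Y) (i j : Bool) (c : ℕ) (h : t.cost ≤ c + 1) :
    (next t i j).cost ≤ c := by
  cases t with
  | out b => simp [next, DetProt.cost]
  | alice g s t =>
      simp only [DetProt.cost] at h
      simp only [next]; split <;> omega
  | bob g s t =>
      simp only [DetProt.cost] at h
      simp only [next]; split <;> omega

theorem exists_qprot (c : ℕ) : ∀ (V : Type) [Fintype V] [DecidableEq V]
    (T : V → DetProt X Y), (∀ v, (T v).cost ≤ c) →
    ∃ P : QProt X Y V V (2 * c), ∀ (x : X) (y : Y) (w : V → ℂ),
      P.acc x y (diag w) = ∑ v, if (T v).run x y = true then Complex.normSq (w v) else 0 := by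
  induction c with
  | zero =>
      intro V _ _ T hT
      have hout : ∀ v, ∃ b, T v = .out b := by
        intro v
        have := hT v
        cases h : T v with
        | out b => exact ⟨b, rfl⟩
        | alice g s t => rw [h] at this; simp [DetProt.cost] at this
        | bob g s t => rw [h] at this; simp [DetProt.cost] at this
      choose b hb using hout
      let E : Matrix V V ℂ := Matrix.diagonal fun v => if b v = true then 1 else 0
      have h₀ : E.PosSemidef := by
        apply Matrix.PosSemidef.diagonal
        intro v
        dsimp only
        split <;> simp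
      have h₁ : (1 - E).PosSemidef := by
        have : 1 - E = Matrix.diagonal fun v => 1 - (if b v = true then (1 : ℂ) else 0) := by
          rw [← Matrix.diagonal_one, Matrix.diagonal_sub]
        rw [this]
        apply Matrix.PosSemidef.diagonal
        intro v
        dsimp only
        split <;> simp
      refine ⟨QProt.aliceOut (fun _ => E) (fun _ => h₀) (fun _ => h₁), ?_⟩
      intro x y w
      simp only [QProt.acc]
      have : (∑ v : V, ∑ a : V, ∑ a' : V,
          (starRingEnd ℂ) (diag w a v) * E a a' * diag w a' v) =
          ((∑ v, if (T v).run x y = true then Complex.normSq (w v) else 0 : ℝ) : ℂ) := by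
        push_cast
        apply Finset.sum_congr rfl
        intro v _
        rw [Finset.sum_eq_single v]
        · rw [Finset.sum_eq_single v]
          · simp only [diag, E, Matrix.diagonal_apply_eq, hb v, DetProt.run, if_true]
            split
            · rw [mul_one, Complex.normSq_eq_conj_mul_self]
            · simp
          · intro a' _ ha'
            simp [diag, ha']
          · simp
        · intro a _ ha
          apply Finset.sum_eq_zero
          intro a' _
          simp [diag, ha]
        · simp
      rw [this, Complex.ofReal_re]
  | succ c ih =>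
      intro V _ _ T hT
      let T' : (V × Bool) × Bool → DetProt X Y := fun v => next (T v.1.1) v.1.2 v.2
      obtain ⟨P', hP'⟩ := ih ((V × Bool) × Bool) T' (fun v => next_cost _ _ _ _ (hT _))
      let gA : X → V → (V × Bool) × Bool := fun x v => ((v, bitA (T v) x), bitA (T v) x)
      let gB : Y → Bool × V → Bool × ((V × Bool) × Bool) := fun y jv =>
        (bitB (T jv.2) y, ((jv.2, jv.1), bitB (T jv.2) y))
      have hgA : ∀ x, Function.Injective (gA x) := by
        intro x v v' h
        have := congrArg (fun z : (V × Bool) × Bool => z.1.1) h
        exact this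
      have hgB : ∀ y, Function.Injective (gB y) := by
        rintro y ⟨j, v⟩ ⟨j', v'⟩ h
        have h1 := congrArg (fun z : Bool × ((V × Bool) × Bool) => z.2.1) h
        simp only [gB, Prod.mk.injEq] at h1
        rw [Prod.mk.injEq]
        exact ⟨h1.2, h1.1⟩
      refine ⟨QProt.aliceSends (fun x => mapMat (gA x)) (fun x => mapMat_isometry _ (hgA x))
        (QProt.bobSends (fun y => mapMat (gB y)) (fun y => mapMat_isometry _ (hgB y)) P'), ?_⟩
      intro x y w
      simp only [QProt.acc]
      let w' : (V × Bool) × Bool → ℂ := fun z =>
        if z.1.2 = bitA (T z.1.1) x ∧ z.2 = bitB (T z.1.1) y then w z.1.1 else 0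
      have key : sendB (mapMat (gB y)) (sendA (mapMat (gA x)) (diag w)) = diag w' := by
        have h1 : ∀ (a : V × Bool) (mv : Bool × V), sendA (mapMat (gA x)) (diag w) a mv =
            if a.1 = mv.2 ∧ a.2 = bitA (T mv.2) x ∧ mv.1 = bitA (T mv.2) x then w mv.2
              else 0 := by
          rintro ⟨v', i⟩ ⟨m, v⟩
          simp only [sendA]
          rw [Finset.sum_eq_single v]
          · simp only [mapMat, gA, diag, Prod.mk.injEq, if_true, and_assoc]
            split <;> simp
          · intro b _ hb
            simp [diag, hb]
          · simp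
        funext am b
        obtain ⟨⟨v', i⟩, m2⟩ := am
        obtain ⟨⟨v1, i1⟩, k1⟩ := b
        simp only [sendB, h1]
        rw [Finset.sum_eq_single (i1, v1)]
        · simp only [mapMat, gB, diag, w', Prod.mk.injEq, true_and]
          by_cases e1 : v' = v1
          · subst e1
            generalize bitA (T v') x = p
            generalize bitB (T v') y = q
            cases m2 <;> cases k1 <;> cases i <;> cases i1 <;> cases p <;> cases q <;> simp
          · simp [e1]
        · rintro ⟨j, v⟩ _ hne
          simp only [mapMat, gB, Prod.mk.injEq]
          have : ¬ (m2 = bitB (T v) y ∧ (v1 = v ∧ i1 = j) ∧ k1 = bitB (T v) y) := by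
            rintro ⟨_, ⟨h2, h3⟩, _⟩
            exact hne (by rw [h2, h3])
          rw [if_neg this, zero_mul]
        · simp
      rw [key, hP']
      rw [Fintype.sum_prod_type, Fintype.sum_prod_type]
      apply Finset.sum_congr rfl
      intro v _
      rw [Finset.sum_eq_single (bitA (T v) x)]
      · rw [Finset.sum_eq_single (bitB (T v) y)]
        · simp only [w', T', next_run, and_self, if_true]
        · intro j _ hj
          simp [w', hj]
        · simp
      · intro i _ hi
        apply Finset.sum_eq_zero
        intro j _
        simp [w', hi]
      · simp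

theorem Qstar_le_of_prot {ε : ℝ} {F : X → Y → Bool} {c : ℕ} {Ω : Type} [Fintype Ω]
    (p : Ω → ℝ) (t : Ω → DetProt X Y) (hp : ∀ ω, 0 ≤ p ω) (hs : ∑ ω, p ω = 1)
    (hc : ∀ ω, (t ω).cost ≤ c)
    (hF : ∀ x y, 1 - ε ≤ ∑ ω, if (t ω).run x y = F x y then p ω else 0) :
    Qstar ε F ≤ 2 * c := by
  classical
  obtain ⟨P, hP⟩ := exists_qprot c Ω t hc
  apply Nat.sInf_le
  have hn : ∀ ω, Complex.normSq ((Real.sqrt (p ω) : ℝ) : ℂ) = p ω := by
    intro ω
    rw [Complex.normSq_ofReal, Real.mul_self_sqrt (hp ω)]
  refine ⟨Ω, Ω, inferInstance, inferInstance, diag (fun ω => ((Real.sqrt (p ω) : ℝ) : ℂ)), P,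
    ?_, ?_⟩
  · rw [← hs]
    apply Finset.sum_congr rfl
    intro ω _
    rw [Finset.sum_eq_single ω]
    · simp only [diag, if_true, hn]
    · intro b _ hb
      simp [diag, hb.symm]
    · simp
  · intro x y
    rw [hP]
    simp only [hn]
    have h := hF x y
    split
    · rename_i hxy
      simpa only [hxy] using h
    · rename_i hxy
      have hxy' : F x y = false := by simpa using hxy
      have : ∑ ω, (if (t ω).run x y = true then p ω else 0) +
          ∑ ω, (if (t ω).run x y = F x y then p ω else 0) = 1 := by
        rw [← Finset.sum_add_distrib, ← hs]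
        apply Finset.sum_congr rfl
        intro ω _
        rw [hxy']
        cases (t ω).run x y <;> simp
      linarith

end Pool.Agent.J4H95.CC
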