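import Pool.Agent.J4H95.CC.Walk
import Pool.Agent.J4H95.CC.Quant

/-!
# The randomized protocol for `min (a, b) mod 2`
-/

namespace Pool.Agent.J4H95.CC

variable {X Y : Type}

theorem exists_test {m : ℕ} (H : Fin (2 ^ m) → Fin 5 → Bool) (α : X → ℕ) (β : Y → ℕ) (q : ℕ)
    (T : Bool → DetProt X Y) (d : ℕ) (hT : ∀ b, (T b).cost ≤ d) :
    ∃ t : DetProt X Y, t.cost ≤ 10 + d ∧
      ∀ x y, t.run x y = (T (test H (α x) (β y) q)).run x y := by
  have h : ∀ w : Fin 5 → Bool, ∃ t : DetProt X Y, t.cost ≤ 5 + d ∧ ∀ x y, t.run x y =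
      (T (decide (q ≤ m) && decide (w = hv H (β y / 2 ^ (m - q))))).run x y := fun w =>
    exists_sendB 5 (fun y => hv H (β y / 2 ^ (m - q)))
      (fun w' => T (decide (q ≤ m) && decide (w = w'))) d (fun _ => hT _)
  choose T' h1 h2 using h
  obtain ⟨t, h3, h4⟩ := exists_sendA 5 (fun x => hv H (α x / 2 ^ (m - q))) T' (5 + d) h1
  refine ⟨t, by omega, ?_⟩
  intro x y
  rw [h4, h2]
  rfl

theorem exists_step {m : ℕ} (L : ℕ) (H : Fin (2 ^ m) → Fin 5 → Bool) (α : X → ℕ) (β : Y → ℕ)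
    (w : List Bool) (T : List Bool → DetProt X Y) (d : ℕ) (hT : ∀ w, (T w).cost ≤ d) :
    ∃ t : DetProt X Y, t.cost ≤ 30 + d ∧
      ∀ x y, t.run x y = (T (step L H (α x) (β y) w)).run x y := by
  have h : ∀ b₁ b₃ : Bool, ∃ t : DetProt X Y, t.cost ≤ 10 + d ∧ ∀ x y, t.run x y =
      (T (if b₁ = true ∧ b₃ = false then test H (α x) (β y) (midq L w) :: w
        else w.tail)).run x y := fun b₁ b₃ =>
    exists_test H α β (midq L w)
      (fun b => T (if b₁ = true ∧ b₃ = false then b :: w else w.tail)) d (fun _ => hT _)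
  choose T₂ h1 h2 using h
  have h' : ∀ b₁ : Bool, ∃ t : DetProt X Y, t.cost ≤ 10 + (10 + d) ∧ ∀ x y, t.run x y =
      (T₂ b₁ (test H (α x) (β y) (highq L w))).run x y := fun b₁ =>
    exists_test H α β (highq L w) (fun b => T₂ b₁ b) (10 + d) (fun _ => h1 _ _)
  choose T₁ h3 h4 using h'
  obtain ⟨t, h5, h6⟩ := exists_test H α β (lowq L w) T₁ (10 + (10 + d)) h3
  refine ⟨t, by omega, ?_⟩
  intro x y
  rw [h6, h4, h2]
  rfl

theorem exists_walk {m : ℕ} (L : ℕ) (α : X → ℕ) (β : Y → ℕ)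
    (final : List Bool → DetProt X Y) (d : ℕ) (hT : ∀ w, (final w).cost ≤ d) (T : ℕ) :
    ∀ (ω : Fin T → (Fin (2 ^ m) → Fin 5 → Bool)) (w : List Bool),
    ∃ t : DetProt X Y, t.cost ≤ 30 * T + d ∧
      ∀ x y, t.run x y = (final (walk L (α x) (β y) T ω w)).run x y := by
  induction T with
  | zero =>
      intro ω w
      exact ⟨final w, by simpa using hT w, fun x y => rfl⟩
  | succ T ih =>
      intro ω w
      choose T' h1 h2 using ih (Fin.tail ω)
      obtain ⟨t, h3, h4⟩ := exists_step L (ω 0) α β w T' (30 * T + d) h1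
      refine ⟨t, by omega, ?_⟩
      intro x y
      rw [h4, h2]
      rfl

/-- The last part of the protocol: Alice sends the digit number `q + 1` of her number, and the
party with the smaller number sends its parity. -/
def final (m L : ℕ) (α : X → ℕ) (β : Y → ℕ) (w : List Bool) : DetProt X Y :=
  .alice (fun x => decide (α x / 2 ^ (m - (val (w.drop (w.length - L)) + 1)) % 2 = 1))
    (.alice (fun x => decide (α x % 2 = 1)) (.out false) (.out true))
    (.bob (fun y => decide (β y % 2 = 1)) (.out false) (.out true))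

theorem final_cost (m L : ℕ) (α : X → ℕ) (β : Y → ℕ) (w : List Bool) :
    (final m L α β w).cost ≤ 2 := by
  simp [final, DetProt.cost]

theorem final_run {m L : ℕ} (α : X → ℕ) (β : Y → ℕ) (w : List Bool) (x : X) (y : Y)
    {p : ℕ} (hp : IsLcp m (α x) (β y) p) (hw : val (w.drop (w.length - L)) = p) :
    (final m L α β w).run x y = decide (min (α x) (β y) % 2 = 1) := by
  have hkey : (α x = β y) ∨ (α x < β y ∧ α x / 2 ^ (m - (p + 1)) % 2 = 0) ∨
      (β y < α x ∧ α x / 2 ^ (m - (p + 1)) % 2 = 1) := by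
    obtain ⟨hpm, hp⟩ := hp
    rcases Nat.lt_or_ge p m with hlt | hge
    · right
      have e1 := (hp p hpm).mpr le_rfl
      have e2 : α x / 2 ^ (m - (p + 1)) ≠ β y / 2 ^ (m - (p + 1)) := by
        intro h
        have := (hp (p + 1) hlt).mp h
        omega
      have e3 : ∀ c : ℕ, c / 2 ^ (m - p) = c / 2 ^ (m - (p + 1)) / 2 := by
        intro c
        rw [Nat.div_div_eq_div_mul, ← pow_succ]
        congr 2
        omega
      rw [e3, e3] at e1
      rcases Nat.mod_two_eq_zero_or_one (α x / 2 ^ (m - (p + 1))) with h | h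
      · left
        refine ⟨?_, h⟩
        by_contra hle
        push Not at hle
        have := Nat.div_le_div_right (c := 2 ^ (m - (p + 1))) hle
        omega
      · right
        refine ⟨?_, h⟩
        by_contra hle
        push Not at hle
        have := Nat.div_le_div_right (c := 2 ^ (m - (p + 1))) hle
        omega
    · left
      have := (hp m le_rfl).mpr hge
      simpa using this
  have e : ∀ c : ℕ, (if decide (c % 2 = 1) = true then (DetProt.out true : DetProt X Y).run x y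
      else (DetProt.out false : DetProt X Y).run x y) = decide (c % 2 = 1) := by
    intro c
    by_cases h : c % 2 = 1 <;> simp [h, DetProt.run]
  simp only [final, hw]
  rw [DetProt.run]
  simp only [DetProt.run] at e ⊢
  rw [e, e]
  rcases hkey with h | ⟨h1, h2⟩ | ⟨h1, h2⟩
  · rw [h, min_self, ite_self]
  · rw [min_eq_left h1.le, h2]
    simp
  · rw [min_eq_right h1.le, h2]
    simp

/-- The public-coin protocol with `3 L` steps. -/
theorem exists_randomized {m L : ℕ} (hm : m < 2 ^ L) (α : X → ℕ) (β : Y → ℕ)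
    (hα : ∀ x, α x < 2 ^ m) (hβ : ∀ y, β y < 2 ^ m) :
    ∃ (Ω : Type) (_ : Fintype Ω) (p : Ω → ℝ) (t : Ω → DetProt X Y),
    (∀ ω, 0 ≤ p ω) ∧ ∑ ω, p ω = 1 ∧ (∀ ω, (t ω).cost ≤ 90 * L + 2) ∧
    ∀ x y, 1 - 1 / 3 ≤ ∑ ω, if (t ω).run x y = decide (min (α x) (β y) % 2 = 1) then p ω
      else 0 := by
  classical
  let Ω := Fin (3 * L) → (Fin (2 ^ m) → (Fin 5 → Bool))
  have h : ∀ ω : Ω, ∃ t : DetProt X Y, t.cost ≤ 30 * (3 * L) + 2 ∧
      ∀ x y, t.run x y = (final m L α β (walk L (α x) (β y) (3 * L) ω [])).run x y := fun ω =>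
    exists_walk L α β (final m L α β) 2 (final_cost m L α β) (3 * L) ω []
  choose t h1 h2 using h
  have hcard : (0 : ℝ) < (Fintype.card Ω : ℕ) := by
    exact_mod_cast Fintype.card_pos
  refine ⟨Ω, inferInstance, fun _ => 1 / (Fintype.card Ω : ℕ), t, ?_, ?_, ?_, ?_⟩
  · intro ω
    positivity
  · rw [Finset.sum_const, Finset.card_univ, nsmul_eq_mul]
    field_simp
  · intro ω
    have := h1 ω
    omega
  · intro x y
    obtain ⟨p, hp⟩ := exists_lcp (hα x) (hβ y)
    have hpL : p < 2 ^ L := lt_of_le_of_lt hp.1 hm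
    have hs := walk_success (L := L) (hα x) (hβ y) hp hpL
    have h3 : ∀ ω : Ω, pot p L (walk L (α x) (β y) (3 * L) ω []) ≤ -(L : ℤ) →
        (t ω).run x y = decide (min (α x) (β y) % 2 = 1) := by
      intro ω hω
      rw [h2]
      exact final_run α β _ x y hp (val_of_pot hpL _ hω)
    have h4 : ∑ ω : Ω, (if pot p L (walk L (α x) (β y) (3 * L) ω []) ≤ -(L : ℤ) then
        (1 : ℝ) / (Fintype.card Ω : ℕ) else 0) ≤
        ∑ ω : Ω, if (t ω).run x y = decide (min (α x) (β y) % 2 = 1) then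
          (1 : ℝ) / (Fintype.card Ω : ℕ) else 0 := by
      apply Finset.sum_le_sum
      intro ω _
      by_cases hω : pot p L (walk L (α x) (β y) (3 * L) ω []) ≤ -(L : ℤ)
      · rw [if_pos hω, if_pos (h3 ω hω)]
      · rw [if_neg hω]
        split
        · positivity
        · exact le_rfl
    refine le_trans ?_ h4
    have h5 : ∑ ω : Ω, (if pot p L (walk L (α x) (β y) (3 * L) ω []) ≤ -(L : ℤ) then
        (1 : ℝ) / (Fintype.card Ω : ℕ) else 0) +
        ∑ ω : Ω, (if ¬ pot p L (walk L (α x) (β y) (3 * L) ω []) ≤ -(L : ℤ) then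
        (1 : ℝ) / (Fintype.card Ω : ℕ) else 0) = 1 := by
      rw [← Finset.sum_add_distrib]
      have : ∀ ω : Ω, (if pot p L (walk L (α x) (β y) (3 * L) ω []) ≤ -(L : ℤ) then
        (1 : ℝ) / (Fintype.card Ω : ℕ) else 0) +
        (if ¬ pot p L (walk L (α x) (β y) (3 * L) ω []) ≤ -(L : ℤ) then
        (1 : ℝ) / (Fintype.card Ω : ℕ) else 0) = (1 : ℝ) / (Fintype.card Ω : ℕ) := by
        intro ω
        by_cases hω : pot p L (walk L (α x) (β y) (3 * L) ω []) ≤ -(L : ℤ) <;> simp [hω]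
      rw [Finset.sum_congr rfl (fun ω _ => this ω), Finset.sum_const, Finset.card_univ,
        nsmul_eq_mul]
      field_simp
    have h6 : ∑ ω : Ω, (if ¬ pot p L (walk L (α x) (β y) (3 * L) ω []) ≤ -(L : ℤ) then
        (1 : ℝ) / (Fintype.card Ω : ℕ) else 0) ≤ 1 / 3 := by
      rw [← Finset.sum_filter, Finset.sum_const, nsmul_eq_mul, mul_one_div, div_le_iff₀ hcard]
      exact hs
    linarith

end Pool.Agent.J4H95.CC
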