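import Pool.Agent.J4H95.CC.Det

/-!
# A noisy binary search for the first difference of two numbers

Two numbers `a, b < 2 ^ m` are compared by hash values of the numbers formed by their leading
`q` binary digits. A random walk on the binary search tree finds the number `p` of common leading
digits.
-/

namespace Pool.Agent.J4H95.CC

/-- The number with the binary digits `w` (the last digit is the head of the list). -/
def val : List Bool → ℕ
  | [] => 0
  | b :: w => 2 * val w + (if b = true then 1 else 0)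

/-- The node `w` of the binary tree is on the path to the leaf `p` of level `L` and below. -/
def Cor (p L : ℕ) (w : List Bool) : Prop := val w = p * 2 ^ w.length / 2 ^ L

instance (p L : ℕ) (w : List Bool) : Decidable (Cor p L w) := by
  unfold Cor; infer_instance

/-- The potential. -/
def pot (p L : ℕ) : List Bool → ℤ
  | [] => 0
  | b :: w => if Cor p L (b :: w) then pot p L w - 1 else pot p L w + 1

theorem cor_nil {p L : ℕ} (hp : p < 2 ^ L) : Cor p L [] := by
  simp only [Cor, val, List.length_nil, pow_zero, mul_one]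
  rw [Nat.div_eq_of_lt hp]

theorem half_next (p L j : ℕ) : p * 2 ^ (j + 1) / 2 ^ L / 2 = p * 2 ^ j / 2 ^ L := by
  rw [Nat.div_div_eq_div_mul, pow_succ, ← mul_assoc]
  exact Nat.mul_div_mul_right _ _ (by norm_num)

theorem Cor.tail {p L : ℕ} {b : Bool} {w : List Bool} (h : Cor p L (b :: w)) : Cor p L w := by
  unfold Cor at *
  rw [List.length_cons] at h
  rw [← half_next, ← h]
  simp only [val]
  split <;> omega

theorem pot_of_cor {p L : ℕ} : ∀ {w : List Bool}, Cor p L w → pot p L w = -(w.length : ℤ)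
  | [], _ => by simp [pot]
  | b :: w, h => by
      have := pot_of_cor h.tail
      simp only [pot, if_pos h, this, List.length_cons]
      push_cast
      ring

theorem cor_drop {p L : ℕ} : ∀ (w : List Bool) (k : ℕ), Cor p L w → Cor p L (w.drop k)
  | [], k, h => by simpa using h
  | b :: w, 0, h => by simpa using h
  | b :: w, k + 1, h => by
      rw [List.drop_succ_cons]
      exact cor_drop w k h.tail

theorem cor_of_pot {p L : ℕ} : ∀ (w : List Bool), pot p L w ≤ -(L : ℤ) →
    Cor p L [] → L ≤ w.length ∧ Cor p L (w.drop (w.length - L))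
  | [], h, h0 => by
      simp only [pot] at h
      have : L = 0 := by omega
      subst this
      exact ⟨by simp, by simpa using h0⟩
  | b :: w, h, h0 => by
      by_cases hc : Cor p L (b :: w)
      · rw [pot_of_cor hc] at h
        refine ⟨by omega, cor_drop _ _ hc⟩
      · simp only [pot, if_neg hc] at h
        obtain ⟨h1, h2⟩ := cor_of_pot w (by omega) h0
        refine ⟨by rw [List.length_cons]; omega, ?_⟩
        rw [List.length_cons, show w.length + 1 - L = (w.length - L) + 1 by omega,
          List.drop_succ_cons]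
        exact h2

theorem val_of_pot {p L : ℕ} (hp : p < 2 ^ L) (w : List Bool) (h : pot p L w ≤ -(L : ℤ)) :
    val (w.drop (w.length - L)) = p := by
  obtain ⟨h1, h2⟩ := cor_of_pot w h (cor_nil hp)
  unfold Cor at h2
  rw [h2, List.length_drop, show w.length - (w.length - L) = L by omega]
  exact Nat.mul_div_cancel _ (by positivity)

/-- The three thresholds which are compared with `p` at the node `w`. -/
def lowq (L : ℕ) (w : List Bool) : ℕ := (val w * 2 ^ L + (2 ^ w.length - 1)) / 2 ^ w.length

def midq (L : ℕ) (w : List Bool) : ℕ :=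
  ((2 * val w + 1) * 2 ^ L + (2 ^ (w.length + 1) - 1)) / 2 ^ (w.length + 1)

def highq (L : ℕ) (w : List Bool) : ℕ :=
  ((val w + 1) * 2 ^ L + (2 ^ w.length - 1)) / 2 ^ w.length

theorem ceil_le_iff {X K p : ℕ} (hK : 0 < K) : (X + (K - 1)) / K ≤ p ↔ X ≤ p * K := by
  rw [Nat.div_le_iff_le_mul_add_pred hK, mul_comm p K]
  omega

theorem cor_iff (p L : ℕ) (w : List Bool) :
    Cor p L w ↔ lowq L w ≤ p ∧ ¬ highq L w ≤ p := by
  unfold lowq highq Cor
  rw [ceil_le_iff (by positivity), ceil_le_iff (by positivity)]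
  rw [eq_comm, Nat.div_eq_iff (by positivity)]
  have : 0 < 2 ^ L := by positivity
  constructor
  · rintro ⟨h1, h2⟩
    refine ⟨by omega, ?_⟩
    rw [add_mul, one_mul]
    omega
  · rintro ⟨h1, h2⟩
    rw [add_mul, one_mul] at h2
    constructor
    · omega
    · omega

theorem cor_cons {p L : ℕ} {w : List Bool} (h : Cor p L w) :
    Cor p L (decide (midq L w ≤ p) :: w) := by
  unfold Cor at *
  have h1 := half_next p L w.length
  rw [← h] at h1
  have h2 : midq L w ≤ p ↔ 2 * val w + 1 ≤ p * 2 ^ (w.length + 1) / 2 ^ L := by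
    unfold midq
    rw [ceil_le_iff (by positivity), Nat.le_div_iff_mul_le (by positivity)]
  simp only [val, List.length_cons, decide_eq_true_eq]
  by_cases h3 : midq L w ≤ p
  · rw [if_pos h3]
    have := h2.mp h3
    omega
  · rw [if_neg h3]
    have := fun h => h3 (h2.mpr h)
    omega

/-- The hash value of a number. -/
def hv {m : ℕ} (H : Fin (2 ^ m) → Fin 5 → Bool) (z : ℕ) : Fin 5 → Bool :=
  H ⟨z % 2 ^ m, Nat.mod_lt _ (by positivity)⟩

/-- The test whether `q` leading digits agree. -/
def test {m : ℕ} (H : Fin (2 ^ m) → Fin 5 → Bool) (a b q : ℕ) : Bool :=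
  decide (q ≤ m) && decide (hv H (a / 2 ^ (m - q)) = hv H (b / 2 ^ (m - q)))

/-- One step of the walk. -/
def step {m : ℕ} (L : ℕ) (H : Fin (2 ^ m) → Fin 5 → Bool) (a b : ℕ) (w : List Bool) :
    List Bool :=
  if test H a b (lowq L w) = true ∧ test H a b (highq L w) = false then
    test H a b (midq L w) :: w else w.tail

theorem pot_step_le {m : ℕ} (p L : ℕ) (H : Fin (2 ^ m) → Fin 5 → Bool) (a b : ℕ)
    (w : List Bool) : pot p L (step L H a b w) ≤ pot p L w + 1 := by
  unfold step
  split
  · simp only [pot]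
    split <;> omega
  · cases w with
    | nil => simp [pot]
    | cons c w =>
        simp only [pot, List.tail_cons]
        split <;> omega

theorem pot_step_good {m : ℕ} {p L : ℕ} (hp : p < 2 ^ L) (H : Fin (2 ^ m) → Fin 5 → Bool)
    (a b : ℕ) (w : List Bool) (h1 : test H a b (lowq L w) = decide (lowq L w ≤ p))
    (h2 : test H a b (midq L w) = decide (midq L w ≤ p))
    (h3 : test H a b (highq L w) = decide (highq L w ≤ p)) :
    pot p L (step L H a b w) ≤ pot p L w - 1 := by
  unfold step
  rw [h1, h2, h3]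
  by_cases hc : Cor p L w
  · have h4 := (cor_iff p L w).mp hc
    rw [if_pos (by simpa using h4)]
    have h5 := cor_cons hc
    simp only [pot, if_pos h5]
    exact le_refl _
  · have h4 := fun h => hc ((cor_iff p L w).mpr h)
    rw [if_neg (by simpa using h4)]
    cases w with
    | nil => exact absurd (cor_nil hp) hc
    | cons c w =>
        simp only [pot, if_neg hc, List.tail_cons]
        omega

theorem collision {A : Type} [Fintype A] [DecidableEq A] (z z' : A) (h : z ≠ z') :
    32 * (Finset.univ.filter (fun H : A → (Fin 5 → Bool) => H z = H z')).card ≤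
      Fintype.card (A → (Fin 5 → Bool)) := by
  have h1 : Fintype.card (Fin 5 → Bool) = 32 := by simp
  rw [← h1, ← Fintype.card_subtype, ← Fintype.card_prod]
  apply Fintype.card_le_of_injective
    (fun cH : (Fin 5 → Bool) × {H : A → (Fin 5 → Bool) // H z = H z'} =>
      Function.update cH.2.1 z cH.1)
  rintro ⟨c, H, hH⟩ ⟨c', H', hH'⟩ heq
  simp only at heq
  have e1 : c = c' := by
    have := congrFun heq z
    simpa using this
  have e2 : ∀ u, u ≠ z → H u = H' u := by
    intro u hu
    have := congrFun heq u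
    simpa [Function.update_of_ne hu] using this
  have e3 : H = H' := by
    funext u
    by_cases hu : u = z
    · rw [hu, hH, hH']
      exact e2 _ h.symm
    · exact e2 u hu
  simp [e1, e3]

theorem hv_ne {m : ℕ} {z z' : ℕ} (hz : z < 2 ^ m) (hz' : z' < 2 ^ m) (h : z ≠ z') :
    32 * (Finset.univ.filter
      (fun H : Fin (2 ^ m) → (Fin 5 → Bool) => hv H z = hv H z')).card ≤
      Fintype.card (Fin (2 ^ m) → (Fin 5 → Bool)) := by
  apply collision
  intro h'
  rw [Fin.mk.injEq, Nat.mod_eq_of_lt hz, Nat.mod_eq_of_lt hz'] at h'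
  exact h h'

/-- `p` is the number of common leading digits of `a` and `b`, written with `m` digits. -/
def IsLcp (m a b p : ℕ) : Prop :=
  p ≤ m ∧ ∀ q, q ≤ m → (a / 2 ^ (m - q) = b / 2 ^ (m - q) ↔ q ≤ p)

theorem exists_lcp {m a b : ℕ} (ha : a < 2 ^ m) (hb : b < 2 ^ m) : ∃ p, IsLcp m a b p := by
  classical
  refine ⟨Nat.findGreatest (fun q => a / 2 ^ (m - q) = b / 2 ^ (m - q)) m,
    Nat.findGreatest_le _, ?_⟩
  intro q hq
  constructor
  · intro h
    exact Nat.le_findGreatest hq h
  · intro h
    have h0 := Nat.findGreatest_spec (P := fun q => a / 2 ^ (m - q) = b / 2 ^ (m - q))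
      (Nat.zero_le m) (by
        simp only [Nat.sub_zero]
        rw [Nat.div_eq_of_lt ha, Nat.div_eq_of_lt hb])
    set p := Nat.findGreatest (fun q => a / 2 ^ (m - q) = b / 2 ^ (m - q)) m
    have hpm : p ≤ m := Nat.findGreatest_le _
    have e : ∀ c : ℕ, c / 2 ^ (m - q) = c / 2 ^ (m - p) / 2 ^ (p - q) := by
      intro c
      rw [Nat.div_div_eq_div_mul, ← pow_add]
      congr 2
      omega
    rw [e, e, h0]

/-- A test fails for at most `1/32` of the hash functions. -/
theorem test_wrong {m a b p : ℕ} (ha : a < 2 ^ m) (hb : b < 2 ^ m) (hp : IsLcp m a b p)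
    (q : ℕ) : 32 * (Finset.univ.filter
      (fun H : Fin (2 ^ m) → (Fin 5 → Bool) => test H a b q ≠ decide (q ≤ p))).card ≤
      Fintype.card (Fin (2 ^ m) → (Fin 5 → Bool)) := by
  by_cases hqm : q ≤ m
  · by_cases hqp : q ≤ p
    · have : (Finset.univ.filter
          (fun H : Fin (2 ^ m) → (Fin 5 → Bool) => test H a b q ≠ decide (q ≤ p))) = ∅ := by
        apply Finset.filter_eq_empty_iff.mpr
        intro H _
        simp [test, hqm, hqp, (hp.2 q hqm).mpr hqp]
      rw [this]
      simp
    · have hne : a / 2 ^ (m - q) ≠ b / 2 ^ (m - q) := fun h => hqp ((hp.2 q hqm).mp h)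
      have := hv_ne (m := m) (lt_of_le_of_lt (Nat.div_le_self _ _) ha)
        (lt_of_le_of_lt (Nat.div_le_self _ _) hb) hne
      refine le_trans ?_ this
      apply Nat.mul_le_mul_left
      apply Finset.card_le_card
      intro H hH
      rw [Finset.mem_filter] at hH ⊢
      refine ⟨hH.1, ?_⟩
      have h2 := hH.2
      simpa [test, hqm, hqp] using h2
  · have hqp : ¬ q ≤ p := fun h => hqm (h.trans hp.1)
    have : (Finset.univ.filter
        (fun H : Fin (2 ^ m) → (Fin 5 → Bool) => test H a b q ≠ decide (q ≤ p))) = ∅ := by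
      apply Finset.filter_eq_empty_iff.mpr
      intro H _
      simp [test, hqm, hqp]
    rw [this]
    simp

/-- The exponential moment of the potential after one step. -/
theorem one_step {m a b p L : ℕ} (ha : a < 2 ^ m) (hb : b < 2 ^ m) (hp : IsLcp m a b p)
    (hL : p < 2 ^ L) (w : List Bool) :
    ∑ H : Fin (2 ^ m) → (Fin 5 → Bool), (3 : ℝ) ^ (pot p L (step L H a b w)) ≤
      7 / 12 * Fintype.card (Fin (2 ^ m) → (Fin 5 → Bool)) * (3 : ℝ) ^ (pot p L w) := by
  classical
  let B : ℕ → Finset (Fin (2 ^ m) → (Fin 5 → Bool)) := fun q =>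
    Finset.univ.filter (fun H => test H a b q ≠ decide (q ≤ p))
  have hB : ∀ q, (32 : ℝ) * (B q).card ≤ Fintype.card (Fin (2 ^ m) → (Fin 5 → Bool)) := by
    intro q
    exact_mod_cast test_wrong ha hb hp q
  have hpos : (0 : ℝ) < (3 : ℝ) ^ (pot p L w) := by positivity
  have h1 : ∀ H : Fin (2 ^ m) → (Fin 5 → Bool),
      (3 : ℝ) ^ (pot p L (step L H a b w)) ≤ (3 : ℝ) ^ (pot p L w) *
        (1 / 3 + 8 / 3 * ((if H ∈ B (lowq L w) then 1 else 0) +
          (if H ∈ B (midq L w) then 1 else 0) + (if H ∈ B (highq L w) then 1 else 0))) := by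
    intro H
    by_cases hg : H ∉ B (lowq L w) ∧ H ∉ B (midq L w) ∧ H ∉ B (highq L w)
    · obtain ⟨g1, g2, g3⟩ := hg
      rw [if_neg g1, if_neg g2, if_neg g3]
      have g1' : test H a b (lowq L w) = decide (lowq L w ≤ p) := by
        by_contra h; exact g1 (Finset.mem_filter.mpr ⟨Finset.mem_univ _, h⟩)
      have g2' : test H a b (midq L w) = decide (midq L w ≤ p) := by
        by_contra h; exact g2 (Finset.mem_filter.mpr ⟨Finset.mem_univ _, h⟩)
      have g3' : test H a b (highq L w) = decide (highq L w ≤ p) := by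
        by_contra h; exact g3 (Finset.mem_filter.mpr ⟨Finset.mem_univ _, h⟩)
      have h2 := pot_step_good hL H a b w g1' g2' g3'
      calc (3 : ℝ) ^ (pot p L (step L H a b w)) ≤ (3 : ℝ) ^ (pot p L w - 1) :=
            zpow_le_zpow_right₀ (by norm_num) h2
        _ = (3 : ℝ) ^ (pot p L w) * (1 / 3 + 8 / 3 * (0 + 0 + 0)) := by
            rw [zpow_sub_one₀ (by norm_num)]; ring
    · have h2 := pot_step_le p L H a b w
      have h3 : (1 : ℝ) ≤ ((if H ∈ B (lowq L w) then 1 else 0) +
          (if H ∈ B (midq L w) then 1 else 0) + (if H ∈ B (highq L w) then 1 else 0)) := by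
        by_cases g1 : H ∈ B (lowq L w) <;> by_cases g2 : H ∈ B (midq L w) <;>
          by_cases g3 : H ∈ B (highq L w) <;> simp_all
      calc (3 : ℝ) ^ (pot p L (step L H a b w)) ≤ (3 : ℝ) ^ (pot p L w + 1) :=
            zpow_le_zpow_right₀ (by norm_num) h2
        _ = (3 : ℝ) ^ (pot p L w) * 3 := by
            rw [zpow_add_one₀ (by norm_num)]
        _ ≤ _ := by
            apply mul_le_mul_of_nonneg_left _ hpos.le
            linarith
  have hsum : ∀ q, (∑ H : Fin (2 ^ m) → (Fin 5 → Bool), if H ∈ B q then (1 : ℝ) else 0) =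
      (B q).card := by
    intro q
    rw [Finset.sum_ite_mem, Finset.univ_inter, Finset.sum_const, nsmul_eq_mul, mul_one]
  calc _ ≤ ∑ H : Fin (2 ^ m) → (Fin 5 → Bool), (3 : ℝ) ^ (pot p L w) *
        (1 / 3 + 8 / 3 * ((if H ∈ B (lowq L w) then 1 else 0) +
          (if H ∈ B (midq L w) then 1 else 0) + (if H ∈ B (highq L w) then 1 else 0))) :=
        Finset.sum_le_sum fun H _ => h1 H
    _ = (3 : ℝ) ^ (pot p L w) * (1 / 3 * Fintype.card (Fin (2 ^ m) → (Fin 5 → Bool)) +
        8 / 3 * ((B (lowq L w)).card + (B (midq L w)).card + (B (highq L w)).card)) := by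
        rw [← Finset.mul_sum, Finset.sum_add_distrib, ← Finset.mul_sum,
          Finset.sum_add_distrib, Finset.sum_add_distrib, hsum, hsum, hsum]
        simp only [Finset.sum_const, Finset.card_univ, nsmul_eq_mul]
        ring
    _ ≤ _ := by
        have := hB (lowq L w)
        have := hB (midq L w)
        have := hB (highq L w)
        rw [mul_comm (7 / 12 * (Fintype.card (Fin (2 ^ m) → (Fin 5 → Bool)) : ℝ))]
        apply mul_le_mul_of_nonneg_left _ hpos.le
        linarith

/-- The walk with the hash functions `ω 0`, `ω 1`, .... -/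
def walk {m : ℕ} (L a b : ℕ) : (T : ℕ) → (Fin T → (Fin (2 ^ m) → Fin 5 → Bool)) →
    List Bool → List Bool
  | 0, _, w => w
  | T + 1, ω, w => walk L a b T (Fin.tail ω) (step L (ω 0) a b w)

theorem walk_moment {m a b p L : ℕ} (ha : a < 2 ^ m) (hb : b < 2 ^ m) (hp : IsLcp m a b p)
    (hL : p < 2 ^ L) (T : ℕ) : ∀ (w : List Bool),
    ∑ ω : Fin T → (Fin (2 ^ m) → (Fin 5 → Bool)), (3 : ℝ) ^ (pot p L (walk L a b T ω w)) ≤
      (7 / 12 * Fintype.card (Fin (2 ^ m) → (Fin 5 → Bool))) ^ T *
        (3 : ℝ) ^ (pot p L w) := by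
  induction T with
  | zero =>
      intro w
      simp [walk]
  | succ T ih =>
      intro w
      rw [← (Fin.consEquiv fun _ => (Fin (2 ^ m) → (Fin 5 → Bool))).sum_comp]
      rw [Fintype.sum_prod_type]
      calc _ = ∑ H : Fin (2 ^ m) → (Fin 5 → Bool),
            ∑ ω : Fin T → (Fin (2 ^ m) → (Fin 5 → Bool)),
              (3 : ℝ) ^ (pot p L (walk L a b T ω (step L H a b w))) := by
            apply Finset.sum_congr rfl
            intro H _
            apply Finset.sum_congr rfl
            intro ω _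
            simp [walk, Fin.consEquiv]
        _ ≤ ∑ H : Fin (2 ^ m) → (Fin 5 → Bool),
            (7 / 12 * Fintype.card (Fin (2 ^ m) → (Fin 5 → Bool))) ^ T *
              (3 : ℝ) ^ (pot p L (step L H a b w)) := Finset.sum_le_sum fun H _ => ih _
        _ = (7 / 12 * Fintype.card (Fin (2 ^ m) → (Fin 5 → Bool))) ^ T *
            ∑ H : Fin (2 ^ m) → (Fin 5 → Bool), (3 : ℝ) ^ (pot p L (step L H a b w)) := by
            rw [Finset.mul_sum]
        _ ≤ (7 / 12 * Fintype.card (Fin (2 ^ m) → (Fin 5 → Bool))) ^ T *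
            (7 / 12 * Fintype.card (Fin (2 ^ m) → (Fin 5 → Bool)) *
              (3 : ℝ) ^ (pot p L w)) := by
            apply mul_le_mul_of_nonneg_left (one_step ha hb hp hL w)
            positivity
        _ = _ := by
            rw [pow_succ]
            ring

/-- After `3 L` steps the walk has found `p`, for at least `2/3` of the coins. -/
theorem walk_success {m a b p L : ℕ} (ha : a < 2 ^ m) (hb : b < 2 ^ m) (hp : IsLcp m a b p)
    (hL : p < 2 ^ L) :
    ((Finset.univ.filter (fun ω : Fin (3 * L) → (Fin (2 ^ m) → (Fin 5 → Bool)) =>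
      ¬ pot p L (walk L a b (3 * L) ω []) ≤ -(L : ℤ))).card : ℝ) ≤
      1 / 3 * Fintype.card (Fin (3 * L) → (Fin (2 ^ m) → (Fin 5 → Bool))) := by
  have h1 := walk_moment ha hb hp hL (3 * L) []
  set N : ℝ := ((Fintype.card (Fin (2 ^ m) → (Fin 5 → Bool)) : ℕ) : ℝ) with hN
  have h2 : ((Finset.univ.filter (fun ω : Fin (3 * L) → (Fin (2 ^ m) → (Fin 5 → Bool)) =>
      ¬ pot p L (walk L a b (3 * L) ω []) ≤ -(L : ℤ))).card : ℝ) ≤
      3 ^ ((L : ℤ) - 1) * ∑ ω : Fin (3 * L) → (Fin (2 ^ m) → (Fin 5 → Bool)),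
        (3 : ℝ) ^ (pot p L (walk L a b (3 * L) ω [])) := by
    rw [Finset.mul_sum, Finset.card_filter]
    push_cast
    apply Finset.sum_le_sum
    intro ω _
    rw [← zpow_add₀ (by norm_num)]
    split
    · rename_i h
      apply one_le_zpow₀ (by norm_num)
      omega
    · positivity
  refine h2.trans ?_
  have h3 : (Fintype.card (Fin (3 * L) → (Fin (2 ^ m) → (Fin 5 → Bool))) : ℝ) =
      N ^ (3 * L) := by
    rw [Fintype.card_fun, Fintype.card_fin]
    push_cast
    rfl
  rw [h3]
  calc _ ≤ (3 : ℝ) ^ ((L : ℤ) - 1) * ((7 / 12 * N) ^ (3 * L) * (3 : ℝ) ^ (pot p L [])) :=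
        mul_le_mul_of_nonneg_left h1 (by positivity)
    _ = 1 / 3 * N ^ (3 * L) * ((7 / 12) ^ 3 * 3) ^ L := by
        simp only [pot, zpow_zero, mul_one]
        rw [zpow_sub_one₀ (by norm_num), zpow_natCast, mul_pow (7 / 12 : ℝ) N, mul_pow _ (3:ℝ) L,
          ← pow_mul]
        ring
    _ ≤ 1 / 3 * N ^ (3 * L) * 1 := by
        apply mul_le_mul_of_nonneg_left _ (by positivity)
        apply pow_le_one₀ (by norm_num)
        norm_num
    _ = _ := mul_one _

end Pool.Agent.J4H95.CC
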